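import Pool.Agent.H94.GapDefs
import Pool.Agent.H94.GapProof

set_option autoImplicit false

namespace Pool.Agent.Results.MP_a53ef7_an.FailsDimOne

open Set Pool.Agent.H94.GapDefs

/-- Dimension `m = 1`. Let the target `N` contain a geodesic segment `γ` of length `L > 0`. For
every `p ∈ [0,1)` and every `C > 0` there are a convex `Ω ⊆ ℝ`, a continuous map `f` into `N` and
`0 < δ < ε` for which `G_p^ε(f,Ω) > C (δ/ε)^(1-p) G_p^δ(f,Ω)`. -/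
theorem result {N : Type} [MetricSpace N] (L : ℝ) (hL : 0 < L) (γ : ℝ → N)
    (hγ : ∀ s ∈ Icc 0 L, ∀ t ∈ Icc 0 L, dist (γ s) (γ t) = |s - t|)
    (p : ℝ) (hp0 : 0 ≤ p) (hp1 : p < 1) (C : ℝ) (hC : 0 < C) :
    ∃ (Ω : Set ℝ) (f : ℝ → N) (δ ε : ℝ), Convex ℝ Ω ∧ Continuous f ∧ 0 < δ ∧ δ < ε ∧
      ENNReal.ofReal (C * (δ / ε) ^ (1 - p)) * G p δ f Ω < G p ε f Ω :=
  Pool.Agent.H94.GapProof.main L hL γ hγ p hp0 hp1 C hC

end Pool.Agent.Results.MP_a53ef7_an.FailsDimOne
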